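import Mathlib

set_option autoImplicit false

/-!
# The class of groups with linear centralisers: definitions
-/

namespace Pool.Agent.H416.WR

universe w z

/-- Each finitely generated subgroup `H` which contains the element `g` has the following property: the
centraliser of `g` in `H` has a representation of finite degree over some field in which `g` has infinite
order. -/
def LinAt (G : Type w) [Group G] (g : G) : Prop :=
  ∀ H : Subgroup G, H.FG → ∀ hg : g ∈ H, ∃ (F : Type z) (_ : Field F) (n : ℕ)
    (ρ : Subgroup.centralizer ({(⟨g, hg⟩ : H)} : Set H) →* GL (Fin n) F),
    ∀ k : ℕ, 0 < k → ρ ⟨⟨g, hg⟩, Subgroup.mem_centralizer_singleton_iff.2 rfl⟩ ^ k ≠ 1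

/-- The class of the groups such that all elements of infinite order have linear centralisers in
the finitely generated subgroups. -/
def LinCls (G : Type w) [Group G] : Prop := ∀ g : G, ¬ IsOfFinOrder g → LinAt.{w, z} G g

end Pool.Agent.H416.WR
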