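import Pool.Agent.H416.WR.Tasks

/-!
# WR0: pullbacks of linear representations of centralisers
-/

set_option autoImplicit false

namespace Pool.Agent.H416.WR

universe w z

theorem WR0_holds : S_WR0.{w, z} := by
  intro G G' _ _ f g h H hH hg
  have hfg : f g ∈ H.map f := Subgroup.mem_map_of_mem f hg
  have hfgen : (H.map f).FG := by
    classical
    obtain ⟨S, hS⟩ := hH
    exact ⟨S.image f, by rw [Finset.coe_image, ← MonoidHom.map_closure, hS]⟩
  obtain ⟨F, hF, n, ρ, hρ⟩ := h (H.map f) hfgen hfg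
  have hc : ∀ x : Subgroup.centralizer ({(⟨g, hg⟩ : H)} : Set H),
      f.subgroupMap H (x : H) ∈
        Subgroup.centralizer ({(⟨f g, hfg⟩ : H.map f)} : Set (H.map f)) := by
    rintro ⟨x, hx⟩
    rw [Subgroup.mem_centralizer_singleton_iff] at hx ⊢
    have h2 := congrArg (f.subgroupMap H) hx
    rw [map_mul, map_mul] at h2
    exact h2
  let φ : Subgroup.centralizer ({(⟨g, hg⟩ : H)} : Set H) →*
      Subgroup.centralizer ({(⟨f g, hfg⟩ : H.map f)} : Set (H.map f)) :=
    ((f.subgroupMap H).comp (Subgroup.subtype _)).codRestrict _ hc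
  exact ⟨F, hF, n, ρ.comp φ, fun k hk h1 => hρ k hk h1⟩

end Pool.Agent.H416.WR
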