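import Pool.Agent.H416.WR.Tasks

set_option autoImplicit false

/-!
Project WR of helper416, subtask WR1: groups with a subgroup of finite index in the class.
-/

namespace Pool.Agent.H147.WR

open Pool.Agent.H416.WR

universe w z

theorem fg_subgroupOf {G : Type w} [Group G] (N H : Subgroup G) [N.FiniteIndex] (hH : H.FG) :
    (H.subgroupOf N).FG := by
  have h1 : Group.FG H := (Group.fg_iff_subgroup_fg H).2 hH
  have h2 : Group.FG (N.subgroupOf H) := Subgroup.fg_of_index_ne_zero _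
  let θ : (N.subgroupOf H) →* N :=
    ((H.subtype).comp (N.subgroupOf H).subtype).codRestrict N (fun x => x.2)
  have h3 : H.subgroupOf N = θ.range := by
    ext y
    constructor
    · intro hy
      exact ⟨⟨⟨y.1, hy⟩, y.2⟩, Subtype.ext rfl⟩
    · rintro ⟨x, rfl⟩
      exact x.1.2
  rw [h3, ← Group.fg_iff_subgroup_fg]
  exact Group.fg_range θ

theorem WR1_holds : S_WR1.{w, z} := by
  intro ind G _ N _ hN g hg H hH hgH
  obtain ⟨k, hk0, _, hk⟩ := Subgroup.exists_pow_mem_of_index_ne_zero (H := N)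
    Subgroup.FiniteIndex.index_ne_zero g
  have hgk : ¬ IsOfFinOrder (⟨g ^ k, hk⟩ : N) := by
    intro h
    apply hg
    obtain ⟨n, hn, h1⟩ := isOfFinOrder_iff_pow_eq_one.1 h
    refine isOfFinOrder_iff_pow_eq_one.2 ⟨k * n, Nat.mul_pos hk0 hn, ?_⟩
    rw [pow_mul]
    exact congrArg Subtype.val h1
  have hmem : (⟨g ^ k, hk⟩ : N) ∈ H.subgroupOf N := H.pow_mem hgH k
  obtain ⟨F, hF, m, ρ, hρ⟩ := hN ⟨g ^ k, hk⟩ hgk (H.subgroupOf N) (fg_subgroupOf N H hH) hmem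
  let C : Subgroup H := Subgroup.centralizer ({(⟨g, hgH⟩ : H)} : Set H)
  let C₁ : Subgroup C := (N.subgroupOf H).subgroupOf C
  have hcomm : ∀ x : C₁, (x.1.1.1 : G) * g ^ k = g ^ k * x.1.1.1 := by
    intro x
    have h1 := Subgroup.mem_centralizer_singleton_iff.1 x.1.2
    have h2 : Commute (x.1.1.1 : G) g := by
      have h3 := congrArg Subtype.val h1
      exact h3
    exact (h2.pow_right k).eq
  let μ : C₁ →* Subgroup.centralizer
      ({(⟨⟨g ^ k, hk⟩, hmem⟩ : H.subgroupOf N)} : Set (H.subgroupOf N)) :=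
    MonoidHom.mk' (fun x => ⟨⟨⟨x.1.1.1, x.2⟩, x.1.1.2⟩,
      Subgroup.mem_centralizer_singleton_iff.2 (Subtype.ext (Subtype.ext (hcomm x)))⟩)
      (fun x y => rfl)
  have hk' : (⟨⟨g, hgH⟩, Subgroup.mem_centralizer_singleton_iff.2 rfl⟩ : C) ^ k ∈ C₁ := hk
  have hμ : μ ⟨(⟨⟨g, hgH⟩, Subgroup.mem_centralizer_singleton_iff.2 rfl⟩ : C) ^ k, hk'⟩ =
      ⟨⟨⟨g ^ k, hk⟩, hmem⟩, Subgroup.mem_centralizer_singleton_iff.2 rfl⟩ :=
    Subtype.ext (Subtype.ext (Subtype.ext rfl))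
  obtain ⟨m', ρ', hρ'⟩ := ind (G := C) C₁ m (ρ.comp μ)
    ⟨⟨g, hgH⟩, Subgroup.mem_centralizer_singleton_iff.2 rfl⟩ k hk' (by
      intro n hn
      rw [MonoidHom.comp_apply, hμ]
      exact hρ n hn)
  exact ⟨F, hF, m', ρ', hρ'⟩

end Pool.Agent.H147.WR
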