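import Pool.Agent.H416.WR.Tasks

set_option autoImplicit false

/-! # WR3: finite direct products (helper118 for helper416) -/

namespace Pool.Agent.H416.WR

universe w z

/-- **WR3.** -/
theorem WR3_holds : S_WR3.{w, z} := by
  intro h0 ι _ G _ hG g hg
  have := Fintype.ofFinite ι
  have h1 : ∃ i, ¬ IsOfFinOrder (g i) := by
    by_contra hcon
    push Not at hcon
    apply hg
    have h2 : ∀ i, ∃ n : ℕ, 0 < n ∧ g i ^ n = 1 := fun i =>
      isOfFinOrder_iff_pow_eq_one.1 (hcon i)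
    choose n hn hn1 using h2
    rw [isOfFinOrder_iff_pow_eq_one]
    refine ⟨∏ i, n i, Finset.prod_pos fun i _ => hn i, ?_⟩
    funext i
    rw [Pi.pow_apply, Pi.one_apply]
    obtain ⟨c, hc⟩ := Finset.dvd_prod_of_mem n (Finset.mem_univ i)
    rw [hc, pow_mul, hn1 i, one_pow]
  obtain ⟨i, hi⟩ := h1
  exact h0 (∀ i, G i) (G i) (Pi.evalMonoidHom G i) g (hG i (g i) hi)

end Pool.Agent.H416.WR
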