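import Pool.Agent.H416.WR.Tasks

set_option autoImplicit false

/-!
# Project WR (helper416), part 4: wreath products with finite groups
-/

namespace Pool.Agent.H632.WR4

open Pool.Agent.H416.WR

universe w z

/-- The kernel of the projection of the wreath product to `Q` is a subgroup of the power of `D`. -/
def leftHom (D Q : Type w) [Group D] [Group Q] :
    (RegularWreathProduct.rightHom (D := D) (Q := Q)).ker →* (Q → D) where
  toFun x := x.1.left
  map_one' := rfl
  map_mul' x y := by
    have hx : x.1.right = 1 := x.2
    show (x.1 * y.1).left = x.1.left * y.1.left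
    rw [RegularWreathProduct.mul_left, hx]
    simp

theorem leftHom_injective (D Q : Type w) [Group D] [Group Q] :
    Function.Injective (leftHom D Q) := by
  intro x y h
  have hx : x.1.right = 1 := x.2
  have hy : y.1.right = 1 := y.2
  apply Subtype.ext
  apply RegularWreathProduct.ext
  · exact h
  · rw [hx, hy]

theorem WR4_holds : S_WR4.{w, z} := by
  intro h0 h1 h3 D Q _ _ _ hD
  have : Finite (RegularWreathProduct.rightHom (D := D) (Q := Q)).range := inferInstance
  have : (RegularWreathProduct.rightHom (D := D) (Q := Q)).ker.FiniteIndex :=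
    Subgroup.finiteIndex_ker _
  have h4 : LinCls.{w, z} (Q → D) := h3 Q (fun _ => D) (fun _ => hD)
  refine h1 (D ≀ᵣ Q) (RegularWreathProduct.rightHom (D := D) (Q := Q)).ker ?_
  intro g hg
  refine h0 _ (Q → D) (leftHom D Q) g (h4 _ ?_)
  intro h5
  exact hg ((leftHom_injective D Q).isOfFinOrder_iff.1 h5)

end Pool.Agent.H632.WR4
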