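import Pool.Agent.H416.WR.Tasks

set_option autoImplicit false

/-!
# Project WR (helper416): extensions with centreless kernel
-/

namespace Pool.Agent.H416.WR

universe w z

theorem WR5_holds : S_WR5.{w, z} := by
  intro h0 G _ N _ hZ haut hQ g hg
  by_cases h1 : IsOfFinOrder (QuotientGroup.mk' N g)
  · -- the image has finite order
    obtain ⟨m, hm, h2⟩ := isOfFinOrder_iff_pow_eq_one.1 h1
    have h3 : g ^ m ∈ N := by
      rw [← map_pow] at h2
      exact (QuotientGroup.eq_one_iff (g ^ m)).1 h2
    refine haut (MulAut.conjNormal (H := N)) g fun n hn h4 => hg ?_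
    refine isOfFinOrder_iff_pow_eq_one.2 ⟨m * n, Nat.mul_pos hm hn, ?_⟩
    have h5 : g ^ (m * n) ∈ N := by
      rw [pow_mul]
      exact N.pow_mem h3 n
    have h6 : (⟨g ^ (m * n), h5⟩ : N) ∈ Subgroup.center N := by
      rw [Subgroup.mem_center_iff]
      intro x
      have h7 : MulAut.conjNormal (H := N) (g ^ (m * n)) = 1 := by
        rw [mul_comm m n, pow_mul, map_pow, map_pow, h4, one_pow]
      have h8 : (MulAut.conjNormal (H := N) (g ^ (m * n)) x : N) = x := by
        rw [h7]
        rfl
      have h9 : g ^ (m * n) * (x : G) * (g ^ (m * n))⁻¹ = (x : G) := by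
        rw [← MulAut.conjNormal_apply, h8]
      apply Subtype.ext
      show (x : G) * g ^ (m * n) = g ^ (m * n) * (x : G)
      rw [← eq_mul_inv_iff_mul_eq, h9]
    rw [hZ, Subgroup.mem_bot] at h6
    exact congrArg Subtype.val h6
  · -- the image has infinite order; the universe levels of `G ⧸ N` and `G` agree
    exact h0 G (G ⧸ N) (QuotientGroup.mk' N) g (hQ _ h1)

end Pool.Agent.H416.WR
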