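import Pool.Agent.H416.WR.Tasks
import Pool.Agent.H416.OF.Fin
import Pool.Agent.H416.KM.Fin
import Pool.Agent.H416.HCh
import Pool.Agent.H416.WR.P0
import Pool.Agent.H416.WR.P1
import Pool.Agent.H416.WR.P3
import Pool.Agent.H416.WR.P4
import Pool.Agent.H416.WR.P5

set_option autoImplicit false

/-!
# The class of groups with linear centralisers
-/

namespace Pool.Agent.H416.WR

open Pool.Agent.H416.LG (Good OnLinear LinC augI mem_cent)
open Pool.Agent.H416.OF (Out)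
open Pool.Agent.H416 (RC LocRC OnCircle OnCAT0 OnNegType OnWalls)

universe u v w x y z

variable {G : Type w} [Group G]

theorem LinAt.good {g : G} (h : LinAt.{w, z} G g) : Good.{w, z} G g :=
  ⟨h.inf, fun H hH hg => Or.inl (h H hH hg)⟩

theorem LinAt.of_linear {g : G} (h : OnLinear.{w, z} G g) : LinAt.{w, z} G g := by
  intro H hH hg
  obtain ⟨F, _, n, ρ, hρ⟩ := h H hH hg
  exact ⟨F, inferInstance, n, ρ.comp (Subgroup.subtype _), hρ⟩

theorem linC_of_rc {g : G} (hg : RC g) : LinC.{w, 0} G g := by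
  obtain ⟨l, hl, hlg⟩ := hg
  have hC : ∀ a : Subgroup.centralizer ({g} : Set G), (a : G) * g = g * a := fun a =>
    Subgroup.mem_centralizer_singleton_iff.1 a.2
  have hadd : ∀ a b : Subgroup.centralizer ({g} : Set G), l (a * b : G) = l a + l b :=
    fun a b => hl a b (hC a) (hC b)
  have h1 : l 1 = 0 := by
    have h2 := hl 1 1 (by rw [one_mul, mul_one]) (by rw [one_mul, mul_one])
    rw [mul_one] at h2
    linarith
  let f : Subgroup.centralizer ({g} : Set G) → Matrix (Fin 2) (Fin 2) ℚ := fun a => !![1, l a; 0, 1]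
  have hf : ∀ a b, f (a * b) = f a * f b := by
    intro a b
    simp only [f, Subgroup.coe_mul, hadd]
    ext i j
    fin_cases i <;> fin_cases j <;> simp [Matrix.mul_apply, Fin.sum_univ_two, add_comm]
  have hf1 : f 1 = 1 := by
    simp only [f, Subgroup.coe_one, h1]
    ext i j
    fin_cases i <;> fin_cases j <;> simp
  let ρ : Subgroup.centralizer ({g} : Set G) →* Matrix (Fin 2) (Fin 2) ℚ :=
    ⟨⟨f, hf1⟩, hf⟩
  refine ⟨ℚ, inferInstance, 2, ρ.toHomUnits, fun k hk h2 => ?_⟩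
  have h3 := congrArg (fun x : GL (Fin 2) ℚ => (x : Matrix (Fin 2) (Fin 2) ℚ) 0 1) h2
  rw [← map_pow] at h3
  have h4 : l (g ^ k) = 0 := by
    have h5 : ((ρ.toHomUnits ((⟨g, mem_cent g⟩ : Subgroup.centralizer ({g} : Set G)) ^ k) :
      GL (Fin 2) ℚ) : Matrix (Fin 2) (Fin 2) ℚ) 0 1 = l (g ^ k) := rfl
    rw [← h5]
    exact h3.trans (by simp)
  have h5 := Pool.Agent.H416.RCT.additive_pow hl k
  rw [h4, hlg, mul_one] at h5
  have h6 : (k : ℚ) = 0 := h5.symm
  have h7 : (k : ℚ) ≠ 0 := by exact_mod_cast hk.ne'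
  exact h7 h6

theorem LinAt.of_rc {g : G} (h : LocRC g) : LinAt.{w, z} G g := fun H hH hg =>
  Pool.Agent.H416.LG.LinC.up.{w, 0, z} (linC_of_rc (h H hH hg))

theorem LinCls.of_local (h : ∀ H : Subgroup G, H.FG → LinCls.{w, z} H) : LinCls.{w, z} G := by
  intro g hg H hH hgH
  have h1 : ¬ IsOfFinOrder (⟨g, hgH⟩ : H) := fun h2 => hg (by
    have h3 := MonoidHom.isOfFinOrder H.subtype h2
    exact h3)
  have h2 := h H hH ⟨g, hgH⟩ h1 ⊤ ((Group.fg_iff_subgroup_fg H).2 hH).out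
    (Subgroup.mem_top _)
  obtain ⟨F, _, n, ρ, hρ⟩ := h2
  let f : H →* (⊤ : Subgroup H) := Subgroup.topEquiv.symm.toMonoidHom
  have hf : f ⟨g, hgH⟩ = ⟨⟨g, hgH⟩, Subgroup.mem_top _⟩ := rfl
  have h3 : LinC.{w, z} (⊤ : Subgroup H) ⟨⟨g, hgH⟩, Subgroup.mem_top _⟩ :=
    ⟨F, inferInstance, n, ρ, hρ⟩
  exact Pool.Agent.H416.LG.LinC.comap f hf h3

/-! ### Closure properties -/

theorem sub {G G' : Type w} [Group G] [Group G'] (f : G →* G') (hf : Function.Injective f)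
    (h : LinCls.{w, z} G') : LinCls.{w, z} G := fun g hg =>
  Pool.Agent.H416.WR.WR0_holds G G' f g (h (f g) fun h1 => hg ((hf.isOfFinOrder_iff (x := g)).1 h1))

theorem index (G : Type w) [Group G] (N : Subgroup G) [N.FiniteIndex] (h : LinCls.{w, z} N) :
    LinCls.{w, z} G :=
  Pool.Agent.H147.WR.WR1_holds (fun H _ m ρ g k hk hn => Pool.Agent.H627.LG9.LG9_holds H m ρ g k hk hn) G N h

theorem prod (ι : Type w) [Finite ι] (G : ι → Type w) [∀ i, Group (G i)]
    (h : ∀ i, LinCls.{w, z} (G i)) : LinCls.{w, z} (∀ i, G i) :=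
  WR3_holds Pool.Agent.H416.WR.WR0_holds ι G h

theorem wreath (D Q : Type w) [Group D] [Group Q] [Finite Q] (h : LinCls.{w, z} D) :
    LinCls.{w, z} (D ≀ᵣ Q) :=
  Pool.Agent.H632.WR4.WR4_holds Pool.Agent.H416.WR.WR0_holds (fun G _ N _ h => index G N h) (fun ι _ G _ h => prod ι G h) D Q h

theorem ext (G : Type w) [Group G] (N : Subgroup G) [N.Normal] (hfg : N.FG)
    (hcen : Subgroup.center N = ⊥)
    (hs : ∀ a : N, a ≠ 1 → ∃ c : ℕ, MonoidAlgebra.of ℚ N a - 1 ∉ augI N ^ c)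
    (h : LinCls.{w, z} (G ⧸ N)) : LinCls.{w, z} G :=
  Pool.Agent.H416.WR.WR5_holds Pool.Agent.H416.WR.WR0_holds G N hcen
    (fun ψ g hg => LinAt.of_linear (OnLinear.of_aut ((Group.fg_iff_subgroup_fg N).2 hfg) hs ψ hg)) h

/-! ### Members -/

theorem not_fin {G : Type w} [Group G] {g : G} (hg : ¬ IsOfFinOrder g) (k : ℕ) (hk : 0 < k) :
    g ^ k ≠ 1 := fun h => hg (isOfFinOrder_iff_pow_eq_one.2 ⟨k, hk, h⟩)

theorem gl (F : Type w) [Field F] (n : ℕ) : LinCls.{w, w} (GL (Fin n) F) := fun g hg =>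
  LinAt.of_linear fun _ _ hgH => ⟨F, inferInstance, n, Subgroup.subtype _, fun k hk h =>
    not_fin hg k hk h⟩

theorem out (α : Type w) [Finite α] : LinCls.{w, z} (Out (FreeGroup α)) := fun g hg =>
  LinAt.of_linear (OnLinear.of_out (MonoidHom.id _) fun k hk h => not_fin hg k hk h)

theorem aut (Γ : Type w) [Group Γ] (hΓ : Group.FG Γ)
    (hs : ∀ a : Γ, a ≠ 1 → ∃ c : ℕ, MonoidAlgebra.of ℚ Γ a - 1 ∉ augI Γ ^ c) :
    LinCls.{w, z} (MulAut Γ) := fun g hg =>
  LinAt.of_linear (OnLinear.of_aut hΓ hs (MonoidHom.id _) fun k hk h => not_fin hg k hk h)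

theorem autFree (α : Type w) [Finite α] : LinCls.{w, z} (MulAut (FreeGroup α)) := fun g hg =>
  LinAt.of_linear (OnLinear.of_autFree (MonoidHom.id _) fun k hk h => not_fin hg k hk h)

theorem loc (F P : Type w) [Field F] [CharZero F] [CommRing P] [IsNoetherianRing P]
    [IsLocalRing P] [Algebra F P] [Module.Finite F (IsLocalRing.ResidueField P)] :
    LinCls.{w, w} (P ≃ₐ[F] P) := fun g hg =>
  LinAt.of_linear (OnLinear.of_local.{w, w, w} (MonoidHom.id _) fun k hk h => not_fin hg k hk h)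

theorem geom {G : Type w} [Group G] (h : ∀ g : G, ¬ IsOfFinOrder g → OnLinear.{w, w} G g ∨
    OnCircle G g ∨ OnCAT0.{w, w} G g ∨ OnNegType.{w, w} G g ∨ OnWalls.{w, w} G g) :
    LinCls.{w, w} G := by
  intro g hg
  rcases h g hg with h | h | h | h | h
  · exact LinAt.of_linear h
  · exact LinAt.of_rc (Pool.Agent.H416.Cls.loc_circle h)
  · exact LinAt.of_rc (Pool.Agent.H416.Cls.loc_cat0 h)
  · exact LinAt.of_rc (Pool.Agent.H416.Cls.loc_negType h)
  · exact LinAt.of_rc (Pool.Agent.H416.Cls.loc_negType (Pool.Agent.H416.Cls.negType_of_walls h))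

end Pool.Agent.H416.WR
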