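import Pool.Agent.H416.WR.Fin

set_option autoImplicit false

/-!
# The class of groups with linear centralisers: closure properties and members
-/

namespace Pool.Agent.H416.WR

open Pool.Agent.H416.LG (Good OnLinear augI)
open Pool.Agent.H416.OF (Out)
open Pool.Agent.H416 (OnCircle OnCAT0 OnNegType OnWalls)

universe w

/-- Closure properties of the class `LinCls`: subgroups, overgroups of finite index, finite direct
products, wreath products with finite groups, directed unions, and extensions of groups `G / N` in the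
class by finitely generated groups `N` with trivial centre such that the powers of the augmentation
ideal of `ℚ[N]` separate the elements of `N` from `1`. -/
def Closed : Prop :=
  (∀ (G G' : Type w) [Group G] [Group G'] (f : G →* G'), Function.Injective f →
    LinCls.{w, w} G' → LinCls.{w, w} G) ∧
  (∀ (G : Type w) [Group G] (N : Subgroup G) [N.FiniteIndex], LinCls.{w, w} N → LinCls.{w, w} G) ∧
  (∀ (ι : Type w) [Finite ι] (G : ι → Type w) [∀ i, Group (G i)],
    (∀ i, LinCls.{w, w} (G i)) → LinCls.{w, w} (∀ i, G i)) ∧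
  (∀ (D Q : Type w) [Group D] [Group Q] [Finite Q], LinCls.{w, w} D →
    LinCls.{w, w} (D ≀ᵣ Q)) ∧
  (∀ (G : Type w) [Group G], (∀ H : Subgroup G, H.FG → LinCls.{w, w} H) → LinCls.{w, w} G) ∧
  (∀ (G : Type w) [Group G] (N : Subgroup G) [N.Normal], N.FG → Subgroup.center N = ⊥ →
    (∀ a : N, a ≠ 1 → ∃ c : ℕ, MonoidAlgebra.of ℚ N a - 1 ∉ augI N ^ c) →
    LinCls.{w, w} (G ⧸ N) → LinCls.{w, w} G)

/-- Groups in the class `LinCls`. -/
def Members : Prop :=
  (∀ (F : Type w) [Field F] (n : ℕ), LinCls.{w, w} (GL (Fin n) F)) ∧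
  (∀ (α : Type w) [Finite α], LinCls.{w, w} (Out (FreeGroup α))) ∧
  (∀ (Γ : Type w) [Group Γ], Group.FG Γ →
    (∀ a : Γ, a ≠ 1 → ∃ c : ℕ, MonoidAlgebra.of ℚ Γ a - 1 ∉ augI Γ ^ c) →
    LinCls.{w, w} (MulAut Γ)) ∧
  (∀ (α : Type w) [Finite α], LinCls.{w, w} (MulAut (FreeGroup α))) ∧
  (∀ (F P : Type w) [Field F] [CharZero F] [CommRing P] [IsNoetherianRing P] [IsLocalRing P]
    [Algebra F P] [Module.Finite F (IsLocalRing.ResidueField P)], LinCls.{w, w} (P ≃ₐ[F] P))

theorem closed : Closed.{w} :=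
  ⟨fun _ _ _ _ f hf h => sub f hf h, fun G _ N _ h => index G N h, fun ι _ G _ h => prod ι G h,
    fun D Q _ _ _ h => wreath D Q h, fun _ _ h => LinCls.of_local h,
    fun G _ N _ h1 h2 h3 h => ext G N h1 h2 h3 h⟩

theorem members : Members.{w} :=
  ⟨fun F _ n => gl F n, fun α _ => out α, fun Γ _ hΓ hs => aut Γ hΓ hs, fun α _ => autFree α,
    fun F P _ _ _ _ _ _ _ => loc F P⟩

/-- Elements whose image in a group of the class has infinite order are good. -/
theorem good_of_hom {G G' : Type w} [Group G] [Group G'] (f : G →* G') (g : G)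
    (h : LinCls.{w, w} G') (hg : ¬ IsOfFinOrder (f g)) : Good.{w, w} G g :=
  Good.comap f (h (f g) hg).good

end Pool.Agent.H416.WR
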