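import Mathlib
import Pool.Agent.H416.WR.Defs

set_option autoImplicit false

/-!
# Project WR (helper416): closure properties of the class of groups with linear centralisers
-/

namespace Pool.Agent.H416.WR

universe u v w z

/-- Elements of finite order do not have `LinAt`. -/
theorem LinAt.inf {G : Type w} [Group G] {g : G} (h : LinAt.{w, z} G g) : ¬ IsOfFinOrder g := by
  intro h1
  obtain ⟨n, hn, h2⟩ := isOfFinOrder_iff_pow_eq_one.1 h1
  obtain ⟨F, _, m, ρ, hρ⟩ := h (Subgroup.closure ({g} : Set G)) ⟨{g}, by simp⟩
    (Subgroup.subset_closure rfl)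
  apply hρ n hn
  rw [← map_pow]
  have h3 : (⟨⟨g, Subgroup.subset_closure rfl⟩, Subgroup.mem_centralizer_singleton_iff.2 rfl⟩ :
      Subgroup.centralizer ({(⟨g, Subgroup.subset_closure rfl⟩ :
        Subgroup.closure ({g} : Set G))} : Set (Subgroup.closure ({g} : Set G)))) ^ n = 1 :=
    Subtype.ext (Subtype.ext h2)
  rw [h3, map_one]

/-- **WR0.** Pullbacks along homomorphisms.

Proof. Let `H` be a finitely generated subgroup of `G` with `g ∈ H`. `H.map f` is finitely generated and
contains `f g`; the homomorphism `f` maps the centraliser of `g` in `H` to the one of `f g` in `H.map f`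
(`MonoidHom.subgroupMap`); compose the representation with it. -/
def S_WR0 : Prop :=
  ∀ (G G' : Type w) [Group G] [Group G'] (f : G →* G') (g : G), LinAt.{w, z} G' (f g) → LinAt.{w, z} G g

/-- **WR1.** Groups with a subgroup of finite index in the class.

Proof. Let `g` be of infinite order in `G`, `H` a finitely generated subgroup with `g ∈ H`. There is `k > 0`
with `g ^ k ∈ N` (`Subgroup.exists_pow_mem_of_index_ne_zero` or the like). `H ⊓ N` has finite index in `H`,
so it is finitely generated (Schreier, `Subgroup.fg_of_index_ne_zero`), and it is the image in `G` of a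
finitely generated subgroup `H₁` of `N` (`(H ⊓ N).subgroupOf N`), `g ^ k ∈ H₁` of infinite order, so the
centraliser of `g ^ k` in `H₁` has a representation `ρ` over a field `F` in which `g ^ k` has infinite order. Let
`C` be the centraliser of `g` in `H` and `C₁` the subgroup of the elements of `C` which are in `N`: it has finite
index in `C` and is mapped to the centraliser of `g ^ k` in `H₁`. The composition `ρ₁` is a representation of
`C₁` in which `g ^ k` has infinite order. The hypothesis `ind` (induced representations), applied to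
`C₁ ≤ C`, the element `g` of `C` and `k`, gives the required representation of `C`. -/
def S_WR1 : Prop :=
  (∀ {F : Type z} {G : Type w} [Field F] [Group G] (H : Subgroup G) [H.FiniteIndex] (m : ℕ)
    (ρ : H →* GL (Fin m) F) (g : G) (k : ℕ) (hk : g ^ k ∈ H),
    (∀ n : ℕ, 0 < n → ρ ⟨g ^ k, hk⟩ ^ n ≠ 1) →
    ∃ (m' : ℕ) (ρ' : G →* GL (Fin m') F), ∀ n : ℕ, 0 < n → ρ' g ^ n ≠ 1) →
  ∀ (G : Type w) [Group G] (N : Subgroup G) [N.FiniteIndex], LinCls.{w, z} N → LinCls.{w, z} G

/-- **WR3.** Finite direct products.

Proof. If `g` has infinite order in `∀ i, G i`, then some `g i` has infinite order (otherwise a common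
multiple of the orders of the `g i` kills `g`: `isOfFinOrder_iff_pow_eq_one`, product of the exponents, or the
lemma `isOfFinOrder_pi_iff` if it exists). Apply `h0` to the projection `Pi.evalMonoidHom`. The universes: all
in `Type w`. -/
def S_WR3 : Prop :=
  (∀ (G G' : Type w) [Group G] [Group G'] (f : G →* G') (g : G), LinAt.{w, z} G' (f g) →
    LinAt.{w, z} G g) →
  ∀ (ι : Type w) [Finite ι] (G : ι → Type w) [∀ i, Group (G i)], (∀ i, LinCls.{w, z} (G i)) →
    LinCls.{w, z} (∀ i, G i)

/-- **WR4.** Wreath products with finite groups.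

Proof. The kernel `N` of `RegularWreathProduct.rightHom : D ≀ᵣ Q →* Q` has finite index, because `Q` is finite
(`Subgroup.finiteIndex_ker`), and it is isomorphic to `Q → D` by `x ↦ x.left` (for `x, y` with
`x.right = 1`: `(x * y).left = x.left * fun q => y.left (1⁻¹ * q) = x.left * y.left`, so
`x ↦ x.left` is an injective homomorphism from `N` to `Q → D`). So `LinCls (Q → D)` (`h3`) gives `LinCls N`
(`h0`, and an injective homomorphism preserves infinite order: `MonoidHom.isOfFinOrder`,
`Function.Injective.isOfFinOrder_iff` or the like) and `h1` gives the assertion. -/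
def S_WR4 : Prop :=
  (∀ (G G' : Type w) [Group G] [Group G'] (f : G →* G') (g : G), LinAt.{w, z} G' (f g) →
    LinAt.{w, z} G g) →
  (∀ (G : Type w) [Group G] (N : Subgroup G) [N.FiniteIndex], LinCls.{w, z} N → LinCls.{w, z} G) →
  (∀ (ι : Type w) [Finite ι] (G : ι → Type w) [∀ i, Group (G i)], (∀ i, LinCls.{w, z} (G i)) →
    LinCls.{w, z} (∀ i, G i)) →
  ∀ (D Q : Type w) [Group D] [Group Q] [Finite Q], LinCls.{w, z} D → LinCls.{w, z} (D ≀ᵣ Q)

/-- **WR5.** Extensions.

Proof. Let `g` be of infinite order in `G`. If its image in `G ⧸ N` has infinite order, apply `h0` to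
`QuotientGroup.mk' N`. Otherwise `g ^ m ∈ N` for some `m > 0`. Let `ψ : G →* MulAut N` be the conjugation
(`MulAut.conjNormal`). If `ψ g ^ n = 1` with `n > 0`, then `g ^ (m n) ∈ N` commutes with all elements of `N`, so it
is in the centre of `N`, so `g ^ (m n) = 1`, a contradiction. So `haut` applies to `ψ`. -/
def S_WR5 : Prop :=
  (∀ (G G' : Type w) [Group G] [Group G'] (f : G →* G') (g : G), LinAt.{w, z} G' (f g) →
    LinAt.{w, z} G g) →
  ∀ (G : Type w) [Group G] (N : Subgroup G) [N.Normal], Subgroup.center N = ⊥ →
    (∀ (ψ : G →* MulAut N) (g : G), (∀ n : ℕ, 0 < n → ψ g ^ n ≠ 1) → LinAt.{w, z} G g) →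
    LinCls.{w, z} (G ⧸ N) → LinCls.{w, z} G

end Pool.Agent.H416.WR
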